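import Pool.Agent.Helper4.T7.StD

/-!
# Project T7, levels `7 * 5^n`, module Itr: iteration of the leading forms

Adapted from `Pool/Agent/Helper7/TH7/M_Itr.lean`.
-/

set_option autoImplicit false

namespace Pool.Agent.Helper51.T7

open Pool.Agent.Helper4.T7
open Pool.Agent.Helper14.CV (Homog EqC act Tl)
open Pool.Agent.Helper28.T7 (HTy SymH)
open Pool.Agent.Helper14.W5 (Fn5 Tm opL op5 Wd5 Lw dX dY S5Low0)

section

variable {r s : ℕ}

/-- the five functions -/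
private noncomputable def P (r s : ℕ) (G : ℤ → ℤ → ZMod 5) : Fin 5 → Fn5 (5 ^ r) (5 ^ s) :=
  fun f => pfQ G f

private theorem lw_pow (hl : S5Low0) {O : Module.End (ZMod 5) (Fn5 (5 ^ r) (5 ^ s))} {k : ℤ}
    (hO : Lw O k) (n : ℕ) : Lw (O ^ n) (k * n) := by
  obtain ⟨hm, -, -, -, -, h1, -⟩ := hl r s
  induction n with
  | zero => simpa using h1
  | succ n ih =>
    rw [pow_succ]
    have := hm _ _ _ _ ih hO
    rwa [show k * n + k = k * (n + 1 : ℕ) by push_cast; ring] at this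

private theorem lw_mono (hl : S5Low0) (a b : ℕ) :
    Lw (dX ^ a * dY ^ b : Module.End (ZMod 5) (Fn5 (5 ^ r) (5 ^ s))) ((a : ℤ) + b) := by
  obtain ⟨hm, -, -, -, -, -, hx, hy, -⟩ := hl r s
  have h1 := hm _ _ _ _ (lw_pow hl hx a) (lw_pow hl hy b)
  rwa [one_mul, one_mul] at h1

private theorem lw_Q (hl : S5Low0) : Lw (QoQ : Module.End (ZMod 5) (Fn5 (5 ^ r) (5 ^ s))) 2 := by
  have h := lw_mono (r := r) (s := s) hl 1 1
  norm_num at h
  exact h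

private theorem lw_L (hl : S5Low0) : Lw (LoQ : Module.End (ZMod 5) (Fn5 (5 ^ r) (5 ^ s))) 6 := by
  have h1 := lw_mono (r := r) (s := s) hl 5 1
  have h2 := (hl r s).2.2.1 _ 2 _ (lw_mono (r := r) (s := s) hl 3 3)
  have h3 := lw_mono (r := r) (s := s) hl 1 5
  norm_num at h1 h2 h3
  exact (hl r s).2.1 _ _ _ ((hl r s).2.1 _ _ _ h1 h2) h3

private theorem lw_M (hl : S5Low0) (c f : ℕ) :
    Lw (MoQ c f : Module.End (ZMod 5) (Fn5 (5 ^ r) (5 ^ s))) (nOQ c : ℤ) := by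
  unfold MoQ
  refine Finset.sum_induction _ (fun O => Lw O (nOQ c : ℤ)) ?_ ?_ ?_
  · exact fun O O' h h' => (hl r s).2.1 _ _ _ h h'
  · exact fun d F _ => Submodule.zero_mem _
  · intro i hi
    rw [Finset.mem_range] at hi
    have h := (hl r s).2.2.1 _ ((qOQ c f i : ℤ) : ZMod 5) _
      (lw_mono (r := r) (s := s) hl (nOQ c - i) i)
    have e : ((nOQ c - i : ℕ) : ℤ) + i = nOQ c := by
      rw [← Nat.cast_add]
      congr 1
      omega
    rwa [e] at h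

private theorem stepL (hl : S5Low0) {O : Module.End (ZMod 5) (Fn5 (5 ^ r) (5 ^ s))} {k e : ℤ}
    (hO : Lw O k) {F H F' : Fn5 (5 ^ r) (5 ^ s)} (hF : F ∈ Wd5 e) (hH : F - H ∈ Wd5 (e - 1))
    (hF' : F' - O F ∈ Wd5 (e - k - 1)) : F' ∈ Wd5 (e - k) ∧ F' - O H ∈ Wd5 (e - k - 1) := by
  have hmono := (hl r s).2.2.2.2.1
  have h1 : O F ∈ Wd5 (e - k) := hO e F hF
  have h2 : O (F - H) ∈ Wd5 (e - k - 1) := by
    have := hO (e - 1) _ hH
    rwa [show e - 1 - k = e - k - 1 by ring] at this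
  constructor
  · have h3 := Submodule.add_mem _ (hmono _ _ (by linarith) hF') h1
    rwa [sub_add_cancel] at h3
  · have h3 := Submodule.add_mem _ hF' h2
    rwa [map_sub, sub_add_sub_cancel] at h3

/-- the state -/
private def St (r s : ℕ) (e : ℤ) (G : ℤ → ℤ → ZMod 5) (H : Fin 5 → Fn5 (5 ^ r) (5 ^ s)) : Prop :=
  SymH 5 r (s + 1) G ∧ ∀ f : Fin 5, P r s G f ∈ Wd5 e ∧ P r s G f - H f ∈ Wd5 (e - 1)

private theorem stU (hr : TRel) (hs : TStp) (hl : S5Low0) (hu : TLdU)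
    {e : ℤ} {G : ℤ → ℤ → ZMod 5} {H : Fin 5 → Fn5 (5 ^ r) (5 ^ s)} (h : St r s e G H) :
    St r s (e - 2) (UoQ (5 ^ r) G) (fun f => QoQ (H f)) := by
  obtain ⟨hG, hF⟩ := h
  obtain ⟨⟨sU, pU⟩, -⟩ := hs r s G hG
  have hR : RelQ (P r s G) := hr (ZMod 5) _ r s G hG
  refine ⟨sU, fun f => ?_⟩
  have l1 := hu r s e (P r s G) hR (fun f => (hF f).1) f
  have e1 : P r s (UoQ (5 ^ r) G) f = ∑ g : Fin 5, opL (ULQ f g) (P r s G g) := pU f
  rw [← e1, show e - 3 = e - 2 - 1 by ring] at l1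
  exact stepL hl (lw_Q hl) (hF f).1 (hF f).2 l1

private theorem stV (hr : TRel) (hs : TStp) (hl : S5Low0) (hv : TLdV)
    {e : ℤ} {G : ℤ → ℤ → ZMod 5} {H : Fin 5 → Fn5 (5 ^ r) (5 ^ s)} (h : St r s e G H) :
    St r s (e - 6) (VoQ (5 ^ r) G) (fun f => LoQ (H f)) := by
  obtain ⟨hG, hF⟩ := h
  obtain ⟨-, ⟨sV, pV⟩, -⟩ := hs r s G hG
  have hR : RelQ (P r s G) := hr (ZMod 5) _ r s G hG
  refine ⟨sV, fun f => ?_⟩
  have l1 := hv r s e (P r s G) hR (fun f => (hF f).1) f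
  have e1 : P r s (VoQ (5 ^ r) G) f = ∑ g : Fin 5, opL (VLQ f g) (P r s G g) := pV f
  rw [← e1, show e - 7 = e - 6 - 1 by ring] at l1
  exact stepL hl (lw_L hl) (hF f).1 (hF f).2 l1

private theorem itU (hr : TRel) (hs : TStp) (hl : S5Low0) (hu : TLdU)
    {e : ℤ} {G : ℤ → ℤ → ZMod 5} {H : Fin 5 → Fn5 (5 ^ r) (5 ^ s)} (h : St r s e G H) (i : ℕ) :
    St r s (e - 2 * i) ((UoQ (5 ^ r))^[i] G)
      (fun f => (QoQ ^ i : Module.End (ZMod 5) (Fn5 (5 ^ r) (5 ^ s))) (H f)) := by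
  induction i with
  | zero => simpa using h
  | succ i ih =>
    have h4 := stU hr hs hl hu ih
    have hp : (QoQ ^ (i + 1) : Module.End (ZMod 5) (Fn5 (5 ^ r) (5 ^ s))) = QoQ * QoQ ^ i :=
      pow_succ' _ _
    have e2 : e - 2 * ((i + 1 : ℕ) : ℤ) = e - 2 * i - 2 := by push_cast; ring
    rw [Function.iterate_succ_apply', hp, e2]
    exact h4

private theorem itV (hr : TRel) (hs : TStp) (hl : S5Low0) (hv : TLdV)
    {e : ℤ} {G : ℤ → ℤ → ZMod 5} {H : Fin 5 → Fn5 (5 ^ r) (5 ^ s)} (h : St r s e G H) (j : ℕ) :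
    St r s (e - 6 * j) ((VoQ (5 ^ r))^[j] G)
      (fun f => (LoQ ^ j : Module.End (ZMod 5) (Fn5 (5 ^ r) (5 ^ s))) (H f)) := by
  induction j with
  | zero => simpa using h
  | succ j ih =>
    have h4 := stV hr hs hl hv ih
    have hp : (LoQ ^ (j + 1) : Module.End (ZMod 5) (Fn5 (5 ^ r) (5 ^ s))) = LoQ * LoQ ^ j :=
      pow_succ' _ _
    have e2 : e - 6 * ((j + 1 : ℕ) : ℤ) = e - 6 * j - 6 := by push_cast; ring
    rw [Function.iterate_succ_apply', hp, e2]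
    exact h4

private theorem kill (hl : S5Low0) {O : Module.End (ZMod 5) (Fn5 (5 ^ r) (5 ^ s))} {k e : ℤ}
    (hO : Lw O k) {F : Fn5 (5 ^ r) (5 ^ s)} (hF : F ∈ Wd5 e) (h : e < k) : O F = 0 := by
  have hmono := (hl r s).2.2.2.2.1
  have hz : ∀ F : Fn5 (5 ^ r) (5 ^ s), F ∈ Wd5 (-1) → F = 0 :=
    (hl r s).2.2.2.2.2.2.2.2.2.2.2.2.2
  exact hz _ (hmono _ (-1) (by linarith [Int.add_one_le_of_lt h]) (hO e F hF))

private theorem dg_eq (c i j : ℕ) : dgQ c i j = nOQ c + 2 * i + 6 * j := by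
  unfold dgQ nOQ
  omega

end

/-- **ITR.** -/
theorem hItr (hr : TRel) (hs : TStp) (hl : S5Low0) (hu : TLdU) (hv : TLdV) (ho : TOm) : TItr := by
  intro r s G d hG hF0 c i j hc
  have hmono := (hl r s).2.2.2.2.1
  have h0 : St r s (d : ℤ) G (P r s G) := by
    refine ⟨hG, fun f => ⟨hF0 f, ?_⟩⟩
    rw [sub_self]
    exact Submodule.zero_mem _
  have hK := itU hr hs hl hu (itV hr hs hl hv h0 j) i
  set K : ℤ → ℤ → ZMod 5 := (UoQ (5 ^ r))^[i] ((VoQ (5 ^ r))^[j] G) with hKd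
  obtain ⟨kG, kF⟩ := hK
  have kR : RelQ (P r s K) := hr (ZMod 5) _ r s K kG
  obtain ⟨-, -, hO, hval⟩ := hs r s K kG
  have ev : evQ (5 ^ r) G c i j = P r s (OoQ c (5 ^ r) K) 0 0 0 :=
    (hval (OoQ c (5 ^ r) K)).symm
  have hOc : P r s (OoQ c (5 ^ r) K) 0 = ∑ f : Fin 5, opL (OLQ (⟨c, by omega⟩ : Fin 8) f) (P r s K f) :=
    hO ⟨c, by omega⟩
  have evM : (d : ℤ) - 6 * j - 2 * i ≤ nOQ c →
      evQ (5 ^ r) G c i j = ∑ f : Fin 5, (MoQ c f.val (P r s K f)) 0 0 := by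
    intro h4
    rw [ev, hOc]
    exact ho r s ⟨c, by omega⟩ (P r s K) kR (fun f => hmono _ _ h4 (kF f).1)
  have hdg := dg_eq c i j
  refine ⟨fun hlt => ?_, fun heq => ?_⟩
  · have hlt' : (d : ℤ) - 6 * j - 2 * i < nOQ c := by
      rw [hdg] at hlt
      have : (d : ℤ) < nOQ c + 2 * i + 6 * j := by exact_mod_cast hlt
      linarith
    rw [evM hlt'.le]
    refine Finset.sum_eq_zero fun f _ => ?_
    rw [kill hl (lw_M hl c f.val) (kF f).1 hlt']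
    rfl
  · have heq' : (d : ℤ) - 6 * j - 2 * i = nOQ c := by
      rw [hdg] at heq
      have : (nOQ c + 2 * i + 6 * j : ℤ) = d := by exact_mod_cast heq
      linarith
    rw [evM heq'.le]
    refine Finset.sum_congr rfl fun f _ => ?_
    have h1 := kill hl (lw_M hl c f.val) (kF f).2 (by linarith)
    rw [map_sub, sub_eq_zero] at h1
    rw [h1]
    rfl

end Pool.Agent.Helper51.T7
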